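import Mathlib
import Pool.Agent.K4H10.DQ.Main

/-!
# Algebraicity of Tate classes after reduction: one point for all classes on all powers

Let `k` be a finitely generated field of characteristic zero, `X` a smooth projective variety over `k`
such that the `ℓ`-adic cohomology of all powers of `X` is semisimple (abelian varieties by Faltings), `E`
the algebraic closure of the field of `ℓ`-adic numbers; `k` is replaced by a finite extension over which
all Tate classes on all powers of `X` are defined. `S` is the set of all points `s` over primes `p ≠ ℓ`
of all models of `X`, in the sense of the problem; it is countable, since `k` is countable. `P s a c F`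
means that the class `F` in `H(X ^ a × X ^ c) = Hom(H(X ^ a), H(X ^ c))` has algebraic reduction at `s`.
Reduction is an isomorphism which respects products and cycles, hence `P s` is closed under linear
combinations, compositions and exterior products (`IsClosed`) and contains the standard classes
(`Planar`, `Symmetric`).
-/

namespace Pool.Agent.Results.MP_b7cd1b_ag.OnePoint

open Matrix Pool.Agent.K4H35.TN Pool.Agent.K4H54.PT

/-- **One point for all Tate classes on all powers.** For `0 < ε < 1 / 2` there is a number `M` such that
for every `m ≥ M` the following are equivalent: (1) every Tate class `F` on `X ^ m` (a sum of Tate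
classes of all codimensions) has algebraic reduction at some point `s`, which may depend on `F`; (2) there
is a point `s` such that more than the proportion `1 / 2 + ε` of the Tate classes on `X ^ m` have
algebraic reduction at `s`; (3) there is ONE point `s` such that ALL Tate classes on ALL products of
powers of `X` have algebraic reduction at `s`. -/
theorem result (T E : Type) [Field E] [CharZero E] [Uncountable E] (X : Cohomology T E)
    (hX : ∀ n, IsSemisimple (X.pow n)) (q : Matrix X.ι X.ι E) (pt : X.ι → E)
    (hq : IsPoincare X q pt) (ε : ℝ) (hε : 0 < ε) (hε' : ε < 1 / 2) :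
    ∃ M : ℕ, ∀ (S : Type) [Countable S]
      (P : S → ∀ a c : ℕ, Matrix (X.pow c).ι (X.pow a).ι E → Prop) (d : X.ι → ℕ),
      (∀ s, IsClosed X (P s)) → (∀ s, Planar X (P s) q pt) → (∀ s, Symmetric X (P s) q d) →
      ∀ m, M ≤ m →
        ((∀ F : Matrix (X.pow m).ι (X.pow 0).ι E, IsCorrespondence (X.pow 0) (X.pow m) F →
            ∃ s, P s 0 m F) ↔
          ∃ s, ∀ (a c : ℕ) (F : Matrix (X.pow c).ι (X.pow a).ι E),
            IsCorrespondence (X.pow a) (X.pow c) F → P s a c F) ∧
        ((∃ s, (1 / 2 + ε) * (tateDim X m : ℝ) < classDim X (P s) m) ↔
          ∃ s, ∀ (a c : ℕ) (F : Matrix (X.pow c).ι (X.pow a).ι E),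
            IsCorrespondence (X.pow a) (X.pow c) F → P s a c F) :=
  K4H10.DQ.one_point X hX q pt hq ε hε hε'

end Pool.Agent.Results.MP_b7cd1b_ag.OnePoint
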